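import Mathlib

set_option autoImplicit false

/-! Integer sequences with bounded gaps and the function `N(b, c, k)`. -/

namespace Q155.Shift

/-- The integer sequence `a 0, ..., a n` is admissible for `b, c`. -/
structure Admissible (b c n : ℕ) (a : ℕ → ℤ) : Prop where
  zero : a 0 = 0
  strict : ∀ i, i < n → a i < a (i + 1)
  gap : ∀ i, i + b ≤ n → a (i + b) ≤ a i + c

/-- The sequence `a 0, ..., a n` hits `k`. -/
def Hits (k n : ℕ) (a : ℕ → ℤ) : Prop := ∃ i j, i < j ∧ j ≤ n ∧ a j - a i = k

/-- `N(b, c, k)`: the least positive `n` such that every admissible sequence `a 0, ..., a n`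
hits `k`, and infinity if there is none. -/
noncomputable def N (b c k : ℕ) : ℕ∞ :=
  sInf {x : ℕ∞ | ∃ n : ℕ, x = n ∧ 1 ≤ n ∧ ∀ a : ℕ → ℤ, Admissible b c n a → Hits k n a}

end Q155.Shift
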