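import Pool.Agent.Q155.Shift.Defs

set_option autoImplicit false

namespace Q155.Shift

open Finset

/-- There is an admissible sequence that does not hit `k`. -/
def Av (b c k n : ℕ) : Prop := ∃ a : ℕ → ℤ, Admissible b c n a ∧ ¬ Hits k n a

theorem Admissible.lt {b c n : ℕ} {a : ℕ → ℤ} (h : Admissible b c n a) {i j : ℕ} (hij : i < j)
    (hj : j ≤ n) : a i < a j := by
  induction j with
  | zero => omega
  | succ j ih =>
    rcases Nat.lt_or_ge i j with h1 | h1
    · exact (ih h1 (by omega)).trans (h.strict j (by omega))
    · have : i = j := by omega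
      subst this
      exact h.strict i (by omega)

theorem Admissible.le {b c n : ℕ} {a : ℕ → ℤ} (h : Admissible b c n a) {i j : ℕ} (hij : i ≤ j)
    (hj : j ≤ n) : a i ≤ a j := by
  rcases Nat.lt_or_ge i j with h1 | h1
  · exact (h.lt h1 hj).le
  · have : i = j := by omega
    rw [this]

theorem Admissible.nonneg {b c n : ℕ} {a : ℕ → ℤ} (h : Admissible b c n a) {i : ℕ} (hi : i ≤ n) :
    0 ≤ a i := by
  rw [← h.zero]
  exact h.le (Nat.zero_le i) hi

theorem Admissible.inj {b c n : ℕ} {a : ℕ → ℤ} (h : Admissible b c n a) {i j : ℕ} (hi : i ≤ n)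
    (hj : j ≤ n) (hij : a i = a j) : i = j := by
  rcases Nat.lt_trichotomy i j with h1 | h1 | h1
  · have := h.lt h1 hj
    omega
  · exact h1
  · have := h.lt h1 hi
    omega

theorem Av.mono {b c k n m : ℕ} (h : Av b c k n) (hm : m ≤ n) : Av b c k m := by
  obtain ⟨a, ha, hk⟩ := h
  refine ⟨a, ⟨ha.zero, fun i hi => ha.strict i (by omega), fun i hi => ha.gap i (by omega)⟩, ?_⟩
  rintro ⟨i, j, h1, h2, h3⟩
  exact hk ⟨i, j, h1, by omega, h3⟩

/-- In a sequence avoiding `k`, elements `k` steps apart differ by at least `2 k`. -/
theorem two_mul_le {b c k n : ℕ} (hk0 : 0 < k) {a : ℕ → ℤ} (ha : Admissible b c n a)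
    (hk : ¬ Hits k n a) {j : ℕ} (hj : j + k ≤ n) : a j + 2 * k ≤ a (j + k) := by
  by_contra hcon
  push Not at hcon
  obtain ⟨s, hs, t, ht, hne, heq⟩ := Finset.exists_ne_map_eq_of_card_lt_of_maps_to
    (s := Finset.Icc j (j + k)) (t := Finset.Ico (a j) (a j + k))
    (by rw [Nat.card_Icc, Int.card_Ico]; omega)
    (f := fun i => if a i < a j + k then a i else a i - k) (by
      intro i hi
      rw [mem_coe, mem_Icc] at hi
      rw [mem_coe, mem_Ico]
      have h1 := ha.le hi.1 (by omega)
      have h2 := ha.le hi.2 (by omega)
      beta_reduce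
      split_ifs <;> constructor <;> omega)
  rw [mem_Icc] at hs ht
  have hs' : s ≤ n := by omega
  have ht' : t ≤ n := by omega
  have key : ∀ s t : ℕ, s ≤ n → t ≤ n → a t = a s + k → False := by
    intro s t hs ht h
    apply hk
    refine ⟨s, t, ?_, ht, by omega⟩
    by_contra hlt
    have := ha.le (show t ≤ s by omega) hs
    omega
  split_ifs at heq with h1 h2 h2
  · exact hne (ha.inj hs' ht' heq)
  · exact key s t hs' ht' (by omega)
  · exact key t s ht' hs' (by omega)
  · exact hne (ha.inj hs' ht' (by omega))

/-- Upper half of the identity. -/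
theorem av_down {b c k n : ℕ} (hk0 : 0 < k) (h : Av (b + k) (c + 2 * k) k (n + k)) :
    Av b c k n := by
  obtain ⟨a, ha, hk⟩ := h
  refine ⟨a, ⟨ha.zero, fun i hi => ha.strict i (by omega), ?_⟩, ?_⟩
  · intro i hi
    have h1 := ha.gap i (by omega)
    have h2 := two_mul_le hk0 ha hk (j := i + b) (by omega)
    rw [← add_assoc] at h1
    push_cast at h1
    omega
  · rintro ⟨i, j, h1, h2, h3⟩
    exact hk ⟨i, j, h1, by omega, h3⟩

/-- In a sequence avoiding `k`, the start of the last window is less than `k`. -/
theorem last_window {b c k n : ℕ} (hb : 0 < b) (hc : c < 2 * b) (hk0 : 0 < k) {a : ℕ → ℤ}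
    (ha : Admissible b c n a) (hk : ¬ Hits k n a) (hn : b ≤ n) : a (n - b) < k := by
  by_contra hcon
  push Not at hcon
  have hne : ∀ i, i ≤ n → a i ≠ k := by
    intro i hi h
    apply hk
    refine ⟨0, i, ?_, hi, by rw [ha.zero, h, sub_zero]⟩
    rcases Nat.eq_zero_or_pos i with rfl | h1
    · rw [ha.zero] at h
      omega
    · exact h1
  -- the last index with value below `k`
  obtain ⟨j, hj1, hj2, hj3⟩ : ∃ j, j + 1 ≤ n - b ∧ a j < k ∧ (k : ℤ) < a (j + 1) := by
    have hex : ∃ i, (k : ℤ) ≤ a i := ⟨n - b, hcon⟩
    classical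
    have hle : Nat.find hex ≤ n - b := Nat.find_min' hex hcon
    have hpos : Nat.find hex ≠ 0 := by
      intro h
      have := Nat.find_spec hex
      rw [h, ha.zero] at this
      omega
    obtain ⟨j, hj⟩ := Nat.exists_eq_succ_of_ne_zero hpos
    have h1 := Nat.find_min hex (show j < Nat.find hex by omega)
    have h2 := Nat.find_spec hex
    rw [hj, Nat.succ_eq_add_one] at h2
    have h3 := hne (j + 1) (by omega)
    exact ⟨j, by omega, by omega, by omega⟩
  have hgap := ha.gap j (by omega)
  have hgap0 := ha.gap 0 (by omega)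
  rw [ha.zero, zero_add, zero_add] at hgap0
  set J : Finset ℤ := Finset.Icc (k : ℤ) (a j + c) with hJ
  set S₁ : Finset ℤ := (Finset.Icc (j + 1) (j + b)).image a with hS₁
  set G : Finset ℕ := (Finset.range (b + 1)).filter (fun i => a i + k ≤ a j + c) with hG
  set S₂ : Finset ℤ := G.image (fun i => a i + k) with hS₂
  have hS₁c : S₁.card = b := by
    rw [hS₁, card_image_of_injOn, Nat.card_Icc]
    · omega
    · intro s hs t ht hst
      rw [mem_coe, mem_Icc] at hs ht
      exact ha.inj (by omega) (by omega) hst
  have hS₂c : S₂.card = G.card := by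
    rw [hS₂, card_image_of_injOn]
    intro s hs t ht hst
    rw [mem_coe, hG, mem_filter, mem_range] at hs ht
    exact ha.inj (by omega) (by omega) (by simpa using hst)
  have hGc : b + 1 ≤ G.card + ((k : ℤ) - a j).toNat := by
    have h1 := Finset.card_filter_add_card_filter_not (s := Finset.range (b + 1))
      (fun i => a i + k ≤ a j + c)
    have h2 : ((Finset.range (b + 1)).filter (fun i => ¬ (a i + k ≤ a j + c))).card ≤
        (Finset.Ioc (a j + c - k) c).card := by
      apply Finset.card_le_card_of_injOn a
      · intro i hi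
        rw [mem_coe, mem_filter, mem_range] at hi
        rw [mem_coe, mem_Ioc]
        have h3 := ha.le (show i ≤ b by omega) (by omega)
        constructor <;> omega
      · intro s hs t ht hst
        rw [mem_coe, mem_filter, mem_range] at hs ht
        exact ha.inj (by omega) (by omega) hst
    rw [Int.card_Ioc] at h2
    rw [card_range, ← hG] at h1
    have h4 : ((c : ℤ) - (a j + c - k)).toNat = ((k : ℤ) - a j).toNat := by
      congr 1
      ring
    rw [h4] at h2
    omega
  have hsub₁ : S₁ ⊆ J := by
    intro x hx
    rw [hS₁, mem_image] at hx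
    obtain ⟨i, hi, rfl⟩ := hx
    rw [mem_Icc] at hi
    rw [hJ, mem_Icc]
    have h1 := ha.le hi.1 (by omega)
    have h2 := ha.le hi.2 (by omega)
    constructor <;> omega
  have hsub₂ : S₂ ⊆ J := by
    intro x hx
    rw [hS₂, mem_image] at hx
    obtain ⟨i, hi, rfl⟩ := hx
    rw [hG, mem_filter, mem_range] at hi
    rw [hJ, mem_Icc]
    have h1 := ha.nonneg (show i ≤ n by omega)
    constructor <;> omega
  have hdisj : Disjoint S₁ S₂ := by
    rw [Finset.disjoint_left]
    intro x hx hx'
    rw [hS₁, mem_image] at hx
    rw [hS₂, mem_image] at hx'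
    obtain ⟨i, hi, rfl⟩ := hx
    obtain ⟨l, hl, hle⟩ := hx'
    rw [mem_Icc] at hi
    rw [hG, mem_filter, mem_range] at hl
    apply hk
    refine ⟨l, i, ?_, by omega, by omega⟩
    by_contra hlt
    have := ha.le (show i ≤ l by omega) (by omega)
    omega
  have htot := card_le_card (union_subset hsub₁ hsub₂)
  rw [card_union_of_disjoint hdisj, hS₁c, hS₂c, hJ, Int.card_Icc] at htot
  have hnn : 0 < (a j + c + 1 - k).toNat := by omega
  omega

/-- Passing from a set of integers to its increasing enumeration. -/
theorem av_of_set (b c k m : ℕ) (B : Finset ℤ) (hB : B.card = m + 1)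
    (h0 : (0 : ℤ) ∈ B) (hnn : ∀ x ∈ B, 0 ≤ x) (hav : ∀ x ∈ B, x + k ∉ B)
    (hgap : ∀ x ∈ B, b ≤ (B.filter (fun y => x < y)).card →
      b ≤ (B.filter (fun y => x < y ∧ y ≤ x + c)).card) : Av b c k m := by
  classical
  set e := B.orderEmbOfFin hB with he
  have heB : ∀ i, e i ∈ B := fun i => Finset.orderEmbOfFin_mem B hB i
  have hsurj : ∀ y ∈ B, ∃ i, e i = y := by
    intro y hy
    have : y ∈ Set.range e := by
      rw [he, Finset.range_orderEmbOfFin]
      exact hy
    exact this
  set a : ℕ → ℤ := fun i => if h : i < m + 1 then e ⟨i, h⟩ else 0 with ha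
  have hai : ∀ i (h : i < m + 1), a i = e ⟨i, h⟩ := by
    intro i h
    rw [ha]
    exact dif_pos h
  have hmono : ∀ i j, i < m + 1 → j < m + 1 → (a i < a j ↔ i < j) := by
    intro i j hi hj
    rw [hai i hi, hai j hj, e.lt_iff_lt, Fin.mk_lt_mk]
  refine ⟨a, ⟨?_, ?_, ?_⟩, ?_⟩
  · rw [hai 0 (by omega)]
    have h1 : e ⟨0, by omega⟩ = B.min' ⟨0, h0⟩ := Finset.orderEmbOfFin_zero hB (by omega)
    rw [h1]
    apply le_antisymm
    · exact Finset.min'_le _ _ h0
    · exact hnn _ (Finset.min'_mem _ _)
  · intro i hi
    rw [hmono i (i + 1) (by omega) (by omega)]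
    omega
  · intro i hi
    have hx : a i ∈ B := by
      rw [hai i (by omega)]
      exact heB _
    have h1 : b ≤ (B.filter (fun y => a i < y)).card := by
      have h2 : ((Finset.Icc (i + 1) m).image a) ⊆ B.filter (fun y => a i < y) := by
        intro y hy
        rw [mem_image] at hy
        obtain ⟨j, hj, rfl⟩ := hy
        rw [mem_Icc] at hj
        rw [mem_filter, hmono i j (by omega) (by omega)]
        refine ⟨?_, by omega⟩
        rw [hai j (by omega)]
        exact heB _
      have h3 := card_le_card h2
      rw [card_image_of_injOn, Nat.card_Icc] at h3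
      · omega
      · intro s hs t ht hst
        rw [mem_coe, mem_Icc] at hs ht
        rw [hai s (by omega), hai t (by omega)] at hst
        have := e.injective hst
        simpa using this
    have h4 := hgap _ hx h1
    by_contra hcon
    push Not at hcon
    rcases Nat.eq_zero_or_pos b with hb | hb
    · subst hb
      simp only [add_zero] at hcon
      omega
    have h5 : B.filter (fun y => a i < y ∧ y ≤ a i + c) ⊆ (Finset.Ioo i (i + b)).image a := by
      intro y hy
      rw [mem_filter] at hy
      obtain ⟨⟨l, hl⟩, hy'⟩ := hsurj y hy.1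
      have hy'' : a l = y := by rw [hai l hl, hy']
      rw [mem_image]
      refine ⟨l, ?_, hy''⟩
      rw [mem_Ioo, ← hmono i l (by omega) hl, ← hmono l (i + b) hl (by omega), hy'']
      exact ⟨hy.2.1, by omega⟩
    have h6 := (card_le_card h5).trans card_image_le
    rw [Nat.card_Ioo] at h6
    omega
  · rintro ⟨i, j, h1, h2, h3⟩
    apply hav (a i)
    · rw [hai i (by omega)]
      exact heB _
    · have h4 : a i + k = a j := by omega
      rw [h4, hai j (by omega)]
      exact heB _

/-- Lower half of the identity: inserting a block of length `2 k` after the start of the last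
window. -/
theorem av_up {b c k n : ℕ} (hb : 0 < b) (hc : c < 2 * b) (hk0 : 0 < k) (h : Av b c k n) :
    Av (b + k) (c + 2 * k) k (n + k) := by
  classical
  obtain ⟨a, ha, hk⟩ := h
  rcases Nat.lt_or_ge n b with hnb | hnb
  · -- no condition on windows
    refine ⟨fun i => 2 * k * i, ⟨by simp, ?_, ?_⟩, ?_⟩
    · intro i _
      push_cast
      have : (0 : ℤ) < k := by exact_mod_cast hk0
      nlinarith
    · intro i hi
      omega
    · rintro ⟨i, j, h1, -, h3⟩
      have h4 : (k : ℤ) * (2 * (j - i) - 1) = 0 := by
        push_cast at h3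
        linear_combination h3
      rcases mul_eq_zero.1 h4 with h5 | h5
      · have : k = 0 := by exact_mod_cast h5
        omega
      · omega
  · have hy : a (n - b) < k := last_window hb hc hk0 ha hk hnb
    set y := a (n - b) with hydef
    have hy0 : 0 ≤ y := ha.nonneg (by omega)
    set A : Finset ℤ := (Finset.range (n + 1)).image a with hA
    have hmA : ∀ x, x ∈ A ↔ ∃ i, i ≤ n ∧ a i = x := by
      intro x
      rw [hA, mem_image]
      constructor
      · rintro ⟨i, hi, h⟩
        rw [mem_range] at hi
        exact ⟨i, by omega, h⟩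
      · rintro ⟨i, hi, h⟩
        exact ⟨i, by rw [mem_range]; omega, h⟩
    have hA0 : ∀ x ∈ A, 0 ≤ x := by
      intro x hx
      obtain ⟨i, hi, rfl⟩ := (hmA x).1 hx
      exact ha.nonneg hi
    have hAk : ∀ x ∈ A, x + k ∉ A := by
      intro x hx hx'
      obtain ⟨i, hi, rfl⟩ := (hmA x).1 hx
      obtain ⟨j, hj, hji⟩ := (hmA _).1 hx'
      apply hk
      refine ⟨i, j, ?_, hj, by omega⟩
      by_contra hlt
      have := ha.le (show j ≤ i by omega) hi
      omega
    have hiy : ∀ i, i ≤ n → (a i ≤ y ↔ i ≤ n - b) := by
      intro i hi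
      constructor
      · intro h
        by_contra hlt
        have := ha.lt (show n - b < i by omega) hi
        omega
      · intro h
        exact ha.le h (by omega)
    set L : Finset ℤ := A.filter (fun x => x ≤ y) with hL
    set U : Finset ℤ := (A.filter (fun x => y < x)).image (fun x => x + 2 * k) with hU
    set F₁ : Finset ℤ := (Finset.Ioc y (y + (k : ℤ))).filter (fun z : ℤ => z - (k : ℤ) ∉ A) with hF₁
    set F₂ : Finset ℤ := ((Finset.Ioc y (y + (k : ℤ))).filter (fun z : ℤ => z - (k : ℤ) ∈ A)).image
      (fun z : ℤ => z + (k : ℤ)) with hF₂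
    have hmL : ∀ x, x ∈ L ↔ x ∈ A ∧ x ≤ y := by intro x; rw [hL, mem_filter]
    have hmU : ∀ x, x ∈ U ↔ x - 2 * k ∈ A ∧ y < x - 2 * k := by
      intro x
      rw [hU, mem_image]
      constructor
      · rintro ⟨z, hz, rfl⟩
        rw [mem_filter] at hz
        rw [add_sub_cancel_right]
        exact hz
      · intro h
        exact ⟨x - 2 * k, by rw [mem_filter]; exact h, by ring⟩
    have hmF₁ : ∀ x, x ∈ F₁ ↔ (y < x ∧ x ≤ y + k) ∧ x - k ∉ A := by
      intro x; rw [hF₁, mem_filter, mem_Ioc]
    have hmF₂ : ∀ x, x ∈ F₂ ↔ (y + k < x ∧ x ≤ y + 2 * k) ∧ x - 2 * k ∈ A := by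
      intro x
      rw [hF₂, mem_image]
      constructor
      · rintro ⟨z, hz, rfl⟩
        rw [mem_filter, mem_Ioc] at hz
        refine ⟨⟨by omega, by omega⟩, ?_⟩
        have e : z + (k : ℤ) - 2 * k = z - k := by ring
        rw [e]
        exact hz.2
      · rintro ⟨⟨h1, h2⟩, h3⟩
        refine ⟨x - k, ?_, by ring⟩
        rw [mem_filter, mem_Ioc]
        refine ⟨⟨by omega, by omega⟩, ?_⟩
        have e : x - (k : ℤ) - k = x - 2 * k := by ring
        rw [e]
        exact h3
    have hLc : L.card = n - b + 1 := by
      have e : L = (Finset.range (n - b + 1)).image a := by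
        ext x
        rw [hmL, hmA, mem_image]
        constructor
        · rintro ⟨⟨i, hi, rfl⟩, h2⟩
          exact ⟨i, by rw [mem_range]; have := (hiy i hi).1 h2; omega, rfl⟩
        · rintro ⟨i, hi, rfl⟩
          rw [mem_range] at hi
          exact ⟨⟨i, by omega, rfl⟩, (hiy i (by omega)).2 (by omega)⟩
      rw [e, card_image_of_injOn, card_range]
      intro s hs t ht hst
      rw [mem_coe, mem_range] at hs ht
      exact ha.inj (by omega) (by omega) hst
    have hUc : U.card = b := by
      rw [hU, card_image_of_injective _ (add_left_injective _)]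
      have e : A.filter (fun x => y < x) = (Finset.Icc (n - b + 1) n).image a := by
        ext x
        rw [mem_filter, hmA, mem_image]
        constructor
        · rintro ⟨⟨i, hi, rfl⟩, h2⟩
          refine ⟨i, ?_, rfl⟩
          rw [mem_Icc]
          have := (hiy i hi).not.1 (by omega)
          omega
        · rintro ⟨i, hi, rfl⟩
          rw [mem_Icc] at hi
          refine ⟨⟨i, by omega, rfl⟩, ?_⟩
          have := (hiy i (by omega)).not.2 (by omega)
          omega
      rw [e, card_image_of_injOn, Nat.card_Icc]
      · omega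
      · intro s hs t ht hst
        rw [mem_coe, mem_Icc] at hs ht
        exact ha.inj (by omega) (by omega) hst
    have hFc : F₁.card + F₂.card = k := by
      rw [hF₂, card_image_of_injective _ (add_left_injective _), hF₁, add_comm,
        Finset.card_filter_add_card_filter_not, Int.card_Ioc]
      omega
    have hFd : Disjoint F₁ F₂ := by
      rw [Finset.disjoint_left]
      intro x hx hx'
      have h1 := (hmF₁ x).1 hx
      have h2 := (hmF₂ x).1 hx'
      omega
    set F : Finset ℤ := F₁ ∪ F₂ with hF
    have hFk : F.card = k := by rw [hF, card_union_of_disjoint hFd, hFc]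
    have hFr : ∀ x ∈ F, y < x ∧ x ≤ y + 2 * k := by
      intro x hx
      rw [hF, mem_union, hmF₁, hmF₂] at hx
      omega
    have hLF : Disjoint L F := by
      rw [Finset.disjoint_left]
      intro x hx hx'
      have h1 := (hmL x).1 hx
      have h2 := hFr x hx'
      omega
    have hLFU : Disjoint (L ∪ F) U := by
      rw [Finset.disjoint_left]
      intro x hx hx'
      rw [hmU] at hx'
      rw [mem_union, hmL] at hx
      rcases hx with hx | hx
      · omega
      · have := hFr x hx
        omega
    set B : Finset ℤ := L ∪ F ∪ U with hB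
    have hmB : ∀ x, x ∈ B ↔ x ∈ L ∨ x ∈ F₁ ∨ x ∈ F₂ ∨ x ∈ U := by
      intro x
      rw [hB, hF]
      simp only [mem_union]
      tauto
    apply av_of_set (b + k) (c + 2 * k) k (n + k) B
    · rw [hB, card_union_of_disjoint hLFU, card_union_of_disjoint hLF, hLc, hFk, hUc]
      omega
    · rw [hmB]
      left
      rw [hmL]
      exact ⟨(hmA 0).2 ⟨0, by omega, ha.zero⟩, hy0⟩
    · intro x hx
      rw [hmB, hmL, hmF₁, hmF₂, hmU] at hx
      rcases hx with hx | hx | hx | hx
      · exact hA0 x hx.1
      · omega
      · omega
      · omega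
    · -- avoiding `k`
      intro x hx hx'
      rw [hmB, hmL, hmF₁, hmF₂, hmU] at hx hx'
      rcases hx with hx | hx | hx | hx
      · rcases hx' with hx' | hx' | hx' | hx'
        · exact hAk x hx.1 hx'.1
        · apply hx'.2
          rw [add_sub_cancel_right]
          exact hx.1
        · omega
        · omega
      · rcases hx' with hx' | hx' | hx' | hx'
        · omega
        · omega
        · apply hx.2
          have e : x + (k : ℤ) - 2 * k = x - k := by ring
          rw [e] at hx'
          exact hx'.2
        · omega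
      · rcases hx' with hx' | hx' | hx' | hx'
        · omega
        · omega
        · omega
        · apply hAk (x - 2 * k) hx.2
          have e : x - 2 * (k : ℤ) + k = x + k - 2 * k := by ring
          rw [e]
          exact hx'.1
      · rcases hx' with hx' | hx' | hx' | hx'
        · omega
        · omega
        · omega
        · apply hAk (x - 2 * k) hx.1
          have e : x - 2 * (k : ℤ) + k = x + k - 2 * k := by ring
          rw [e]
          exact hx'.1
    · -- the windows
      intro x hx hcount
      -- `x` is an element of `L`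
      have hxL : x ∈ L := by
        by_contra hxL
        have hxy : y < x := by
          rw [hmB, hmF₁, hmF₂, hmU] at hx
          rcases hx with hx | hx | hx | hx
          · exact absurd hx hxL
          · omega
          · omega
          · omega
        have hsub : B.filter (fun z => x < z) ⊆ (F ∪ U).erase x := by
          intro z hz
          rw [mem_filter, hB, mem_union, mem_union] at hz
          rw [mem_erase, mem_union]
          refine ⟨by omega, ?_⟩
          rcases hz with ⟨(h1 | h1) | h1, h2⟩
          · rw [hmL] at h1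
            omega
          · exact Or.inl h1
          · exact Or.inr h1
        have h1 := card_le_card hsub
        have hxFU : x ∈ F ∪ U := by
          rw [hB, mem_union, mem_union] at hx
          rw [mem_union]
          rcases hx with (h | h) | h
          · exact absurd h hxL
          · exact Or.inl h
          · exact Or.inr h
        rw [card_erase_of_mem hxFU] at h1
        have h2 := card_union_le F U
        rw [hFk, hUc] at h2
        omega
      obtain ⟨hxA, hxy⟩ := (hmL x).1 hxL
      obtain ⟨i, hi, rfl⟩ := (hmA x).1 hxA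
      have hip : i ≤ n - b := (hiy i hi).1 hxy
      have hx0 : 0 ≤ a i := hA0 _ hxA
      have hgap := ha.gap i (by omega)
      set W : ℤ := a i + ((c + 2 * k : ℕ) : ℤ) with hW
      have hWe : W = a i + c + 2 * k := by rw [hW]; push_cast; ring
      set X : Finset ℤ := (Finset.Ioc i (i + b)).image a with hX
      have hXc : X.card = b := by
        rw [hX, card_image_of_injOn, Nat.card_Ioc]
        · omega
        · intro s hs t ht hst
          rw [mem_coe, mem_Ioc] at hs ht
          exact ha.inj (by omega) (by omega) hst
      have hXm : ∀ u ∈ X, u ∈ A ∧ a i < u ∧ u ≤ a i + c := by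
        intro u hu
        rw [hX, mem_image] at hu
        obtain ⟨j, hj, rfl⟩ := hu
        rw [mem_Ioc] at hj
        refine ⟨(hmA _).2 ⟨j, by omega, rfl⟩, ha.lt hj.1 (by omega), ?_⟩
        exact (ha.le hj.2 (by omega)).trans hgap
      set φ : ℤ → ℤ := fun u => if u ≤ y then u else u + 2 * k with hφ
      set ψ : ℤ → ℤ := fun f => if f ≤ W then f else f - 2 * k with hψ
      have hφi : Set.InjOn φ (X : Set ℤ) := by
        intro u _ v _ huv
        simp only [hφ] at huv
        split_ifs at huv <;> omega
      have hψi : Set.InjOn ψ (F : Set ℤ) := by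
        intro u hu v hv huv
        have h1 := hFr u hu
        have h2 := hFr v hv
        simp only [hψ] at huv
        split_ifs at huv <;> omega
      have hdis : Disjoint (X.image φ) (F.image ψ) := by
        rw [Finset.disjoint_left]
        intro z hz hz'
        rw [mem_image] at hz hz'
        obtain ⟨u, hu, rfl⟩ := hz
        obtain ⟨f, hf, hfu⟩ := hz'
        have h1 := hXm u hu
        have h2 := hFr f hf
        simp only [hφ, hψ] at hfu
        split_ifs at hfu <;> omega
      have hsub : X.image φ ∪ F.image ψ ⊆ B.filter (fun z => a i < z ∧ z ≤ W) := by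
        intro z hz
        rw [mem_union, mem_image, mem_image] at hz
        rw [mem_filter, hmB, hmL, hmU]
        rcases hz with ⟨u, hu, rfl⟩ | ⟨f, hf, rfl⟩
        · obtain ⟨h1, h2, h3⟩ := hXm u hu
          simp only [hφ]
          split_ifs with h4
          · exact ⟨Or.inl ⟨h1, h4⟩, h2, by omega⟩
          · refine ⟨Or.inr (Or.inr (Or.inr ⟨?_, by omega⟩)), by omega, by omega⟩
            rw [add_sub_cancel_right]
            exact h1
        · have h1 := hFr f hf
          simp only [hψ]
          split_ifs with h4
          · refine ⟨?_, by omega, h4⟩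
            rw [hF, mem_union] at hf
            rcases hf with hf | hf
            · exact Or.inr (Or.inl hf)
            · exact Or.inr (Or.inr (Or.inl hf))
          · have hf2 : f ∈ F₂ := by
              rw [hF, mem_union] at hf
              rcases hf with hf | hf
              · have := (hmF₁ f).1 hf
                omega
              · exact hf
            have h5 := (hmF₂ f).1 hf2
            exact ⟨Or.inl ⟨h5.2, by omega⟩, by omega, by omega⟩
      have h6 := card_le_card hsub
      rw [card_union_of_disjoint hdis, card_image_of_injOn hφi, card_image_of_injOn hψi, hXc,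
        hFk] at h6
      exact h6

theorem N_eq {b c k m : ℕ} (hm : 1 ≤ m) (h1 : ¬ Av b c k m) (h2 : Av b c k (m - 1)) :
    N b c k = m := by
  unfold N
  apply le_antisymm
  · apply sInf_le
    refine ⟨m, rfl, hm, ?_⟩
    intro a ha
    by_contra hk
    exact h1 ⟨a, ha, hk⟩
  · apply le_sInf
    rintro x ⟨n, rfl, hn, hall⟩
    by_contra hlt
    push Not at hlt
    have hlt' : n < m := by exact_mod_cast hlt
    obtain ⟨a, ha, hk⟩ := h2.mono (show n ≤ m - 1 by omega)
    exact hk (hall a ha)

/-- For all positive integers `b, c, k` with `b ≤ c < 2 b`, both values are finite and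
`N(b + k, c + 2 k, k) = N(b, c, k) + k`. -/
theorem main (b c k : ℕ) (hb : 0 < b) (hk : 0 < k) (_hbc : b ≤ c) (hc : c < 2 * b) :
    N (b + k) (c + 2 * k) k = N b c k + k ∧ N b c k ≠ ⊤ := by
  classical
  have hbound : ¬ Av b c k (b + k) := by
    rintro ⟨a, ha, hk'⟩
    have h1 := last_window hb hc hk ha hk' (by omega)
    have h2 : ∀ i, i ≤ b + k → (i : ℤ) ≤ a i := by
      intro i
      induction i with
      | zero => intro _; rw [ha.zero]; rfl
      | succ i ih =>
        intro hi
        have h3 := ih (by omega)
        have h4 := ha.strict i (by omega)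
        push_cast
        omega
    have h5 := h2 (b + k - b) (by omega)
    omega
  have hex : ∃ n, ¬ Av b c k n := ⟨_, hbound⟩
  set m := Nat.find hex with hm
  have hm1 : ¬ Av b c k m := Nat.find_spec hex
  have h0 : Av b c k 0 := by
    refine ⟨fun _ => 0, ⟨rfl, fun i hi => by omega, fun i hi => by simp⟩, ?_⟩
    rintro ⟨i, j, h1, h2, h3⟩
    omega
  have hmpos : 1 ≤ m := by
    rcases Nat.eq_zero_or_pos m with h | h
    · rw [h] at hm1
      exact absurd h0 hm1
    · exact h
  have hm2 : Av b c k (m - 1) := by
    by_contra h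
    have := Nat.find_min' hex h
    omega
  have e1 : N b c k = m := N_eq hmpos hm1 hm2
  have e2 : N (b + k) (c + 2 * k) k = (m + k : ℕ) := by
    apply N_eq (by omega)
    · intro h
      exact hm1 (av_down hk h)
    · have := av_up hb hc hk hm2
      have e : m - 1 + k = m + k - 1 := by omega
      rw [e] at this
      exact this
  refine ⟨?_, ?_⟩
  · rw [e1, e2]
    push_cast
    rfl
  · rw [e1]
    exact ENat.natCast_ne_top m

end Q155.Shift
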